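import Pool.Agent.Y852.SX.D4

set_option autoImplicit false

/-! Products of Poisson series. -/

namespace Pool.Agent.Y852.SX

open Finset Filter Topology MeasureTheory Complex
open Pool.Agent.TH806

noncomputable section

lemma pois {r : ℝ} (h0 : 0 ≤ r) (h1 : r < 1) (x : ℝ) :
    HasSum (fun k : ℤ => (r:ℂ) ^ k.natAbs * ec (k * x)) (Pk (r:ℂ) x) := by
  have hr : ‖(r:ℂ)‖ < 1 := by rw [Complex.norm_real, Real.norm_of_nonneg h0]; exact h1
  rw [Pk_split hr]
  have hq : ∀ y : ℝ, ‖(r:ℂ) * ec y‖ < 1 := by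
    intro y; rw [norm_mul, ec_norm, mul_one]; exact hr
  refine HasSum.of_nat_of_neg_add_one ?_ ?_
  · have h := hasSum_geometric_of_norm_lt_one (hq x)
    have e : (fun n : ℕ => (r:ℂ) ^ ((n:ℤ)).natAbs * ec (((n:ℤ) : ℝ) * x)) =
        fun n : ℕ => ((r:ℂ) * ec x) ^ n := by
      funext n
      rw [Int.natAbs_natCast, mul_pow, Int.cast_natCast, ec_nat]
    rw [e]
    exact h
  · have h := (hasSum_geometric_of_norm_lt_one (hq (-x))).mul_left ((r:ℂ) * ec (-x))
    have e : (fun n : ℕ => (r:ℂ) ^ (-((n:ℤ) + 1)).natAbs * ec (((-((n:ℤ) + 1) : ℤ) : ℝ) * x)) =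
        fun n : ℕ => ((r:ℂ) * ec (-x)) * ((r:ℂ) * ec (-x)) ^ n := by
      funext n
      have e1 : (-((n:ℤ) + 1)).natAbs = n + 1 := by omega
      have e2 : ((-((n:ℤ) + 1) : ℤ) : ℝ) * x = ((n + 1 : ℕ) : ℝ) * (-x) := by push_cast; ring
      rw [e1, e2, ec_nat]
      ring
    rw [e]
    exact h

lemma pois_sum {r : ℝ} (h0 : 0 ≤ r) (h1 : r < 1) :
    Summable (fun k : ℤ => r ^ k.natAbs) := by
  refine Summable.of_nat_of_neg_add_one ?_ ?_
  · simpa using summable_geometric_of_lt_one h0 h1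
  · have h := (summable_geometric_of_lt_one h0 h1).mul_left r
    have e : (fun n : ℕ => r ^ (-((n:ℤ) + 1)).natAbs) = fun n : ℕ => r * r ^ n := by
      funext n
      have e1 : (-((n:ℤ) + 1)).natAbs = n + 1 := by omega
      rw [e1, pow_succ, mul_comm]
    rw [e]
    exact h

lemma pi_sum (n : ℕ) : ∀ (f : Fin n → ℤ → ℂ), (∀ j, Summable (fun m => ‖f j m‖)) →
    Summable (fun k : Fin n → ℤ => ‖∏ j, f j (k j)‖) ∧
    HasSum (fun k : Fin n → ℤ => ∏ j, f j (k j)) (∏ j, ∑' m, f j m) := by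
  induction n with
  | zero =>
    intro f _
    have h : HasSum (fun k : Fin 0 → ℤ => ∏ j, f j (k j)) (∏ j, ∑' m, f j m) := by
      have := hasSum_unique (fun k : Fin 0 → ℤ => ∏ j, f j (k j))
      simp only [Finset.univ_eq_empty, Finset.prod_empty] at this ⊢
      exact this
    exact ⟨(hasSum_unique (fun k : Fin 0 → ℤ => ‖∏ j, f j (k j)‖)).summable, h⟩
  | succ n ih =>
    intro f hf
    obtain ⟨h1, h2⟩ := ih (fun j => f j.succ) (fun j => hf j.succ)
    let g : (Fin n → ℤ) → ℂ := fun k => ∏ j, f (Fin.succ j) (k j)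
    have hg1 : Summable (fun k => ‖g k‖) := h1
    have hg2 : HasSum g (∏ j : Fin n, ∑' m, f (Fin.succ j) m) := h2
    have h3 := (hf 0).mul_norm hg1
    have h5 : Summable (fun m => f 0 m) := (hf 0).of_norm
    have h4 := HasSum.mul h5.hasSum hg2 h3.of_norm
    have e : (fun k : Fin (n+1) → ℤ => ∏ j, f j (k j)) ∘ (Fin.consEquiv (fun _ => ℤ)) =
        fun x : ℤ × (Fin n → ℤ) => f 0 x.1 * g x.2 := by
      funext x
      rw [Function.comp_apply, Fin.prod_univ_succ]
      rfl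
    have e' : (fun k : Fin (n+1) → ℤ => ‖∏ j, f j (k j)‖) ∘ (Fin.consEquiv (fun _ => ℤ)) =
        fun x : ℤ × (Fin n → ℤ) => ‖f 0 x.1 * g x.2‖ := by
      funext x
      rw [Function.comp_apply, Fin.prod_univ_succ]
      rfl
    constructor
    · rw [← (Fin.consEquiv (fun _ => ℤ)).summable_iff, e']
      exact h3
    · rw [← (Fin.consEquiv (fun _ => ℤ)).hasSum_iff, e, Fin.prod_univ_succ]
      exact h4

end

end Pool.Agent.Y852.SX
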