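import Pool.Agent.Y969.SM.Stm2
import Pool.Agent.Y852.SX.Pois

set_option autoImplicit false

/-! Project SX: the local density as a Fourier series (S_LOC). -/

namespace Pool.Agent.Y852.SX

open Finset Filter Topology MeasureTheory Complex
open Pool.Agent.TH806
open Pool.Agent.Y969.SM (kx lc loc S_LOC)

noncomputable section

/-- the term of the multiple Poisson series -/
def tm {n : ℕ} (r : ℝ) (a : Fin n → ℝ) (k : Fin n → ℤ) (θ : ℝ) : ℂ :=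
  ∏ j, ((r:ℂ) ^ (k j).natAbs * ec (k j * (θ - a j)))

lemma ec_prod {n : ℕ} (f : Fin n → ℝ) : ∏ j, ec (f j) = ec (∑ j, f j) := by
  classical
  induction (Finset.univ : Finset (Fin n)) using Finset.induction_on with
  | empty => simp [ec_zero]
  | insert a s ha ih => rw [prod_insert ha, sum_insert ha, ih, ec_add]

lemma tm_eq {n : ℕ} (r : ℝ) (a : Fin n → ℝ) (k : Fin n → ℤ) (θ : ℝ) :
    tm r a k θ = ec (((∑ j, k j : ℤ) : ℝ) * θ) *
      ((∏ j, (r:ℂ) ^ (k j).natAbs) * ∏ j, ec (-(k j * a j))) := by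
  unfold tm
  rw [prod_mul_distrib, ec_prod, ec_prod]
  have : ∑ j, ((k j : ℝ) * (θ - a j)) = ((∑ j, k j : ℤ) : ℝ) * θ + ∑ j, (-((k j : ℝ) * a j)) := by
    push_cast
    rw [sum_mul, ← sum_add_distrib]
    apply sum_congr rfl
    intro j _
    ring
  rw [this, ec_add]
  ring

lemma tm_norm {n : ℕ} {r : ℝ} (h0 : 0 ≤ r) (a : Fin n → ℝ) (k : Fin n → ℤ) (θ : ℝ) :
    ‖tm r a k θ‖ = ∏ j, r ^ (k j).natAbs := by
  unfold tm
  rw [norm_prod]
  apply prod_congr rfl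
  intro j _
  rw [norm_mul, ec_norm, mul_one, norm_pow, Complex.norm_real, Real.norm_of_nonneg h0]

lemma prod_summable (n : ℕ) {r : ℝ} (h0 : 0 ≤ r) (h1 : r < 1) :
    Summable (fun k : Fin n → ℤ => ∏ j, r ^ (k j).natAbs) := by
  have h := (pi_sum n (fun _ m => (r:ℂ) ^ m.natAbs) (fun _ => by
    have := pois_sum h0 h1
    refine this.congr fun m => ?_
    rw [norm_pow, Complex.norm_real, Real.norm_of_nonneg h0])).1
  refine h.congr fun k => ?_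
  rw [norm_prod]
  apply prod_congr rfl
  intro j _
  rw [norm_pow, Complex.norm_real, Real.norm_of_nonneg h0]

lemma tm_hasSum {n : ℕ} {r : ℝ} (h0 : 0 ≤ r) (h1 : r < 1) (a : Fin n → ℝ) (θ : ℝ) :
    HasSum (fun k : Fin n → ℤ => tm r a k θ) (∏ j, Pk (r:ℂ) (θ - a j)) := by
  have h := (pi_sum n (fun j m => (r:ℂ) ^ m.natAbs * ec (m * (θ - a j))) (fun j => by
    have := pois_sum h0 h1
    refine this.congr fun m => ?_
    rw [norm_mul, ec_norm, mul_one, norm_pow, Complex.norm_real, Real.norm_of_nonneg h0])).2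
  have e : ∏ j, (∑' m : ℤ, (r:ℂ) ^ m.natAbs * ec (m * (θ - a j))) =
      ∏ j, Pk (r:ℂ) (θ - a j) := by
    apply prod_congr rfl
    intro j _
    exact (pois h0 h1 (θ - a j)).tsum_eq
  rw [← e]
  exact h

/-- integration term by term -/
theorem int_tm {n : ℕ} {r : ℝ} (h0 : 0 ≤ r) (h1 : r < 1) (a : Fin n → ℝ) :
    ∫ θ, ((qd r θ : ℝ) : ℂ) * ∏ j, Pk (r:ℂ) (θ - a j) ∂uu =
      ∑' k : Fin n → ℤ, ((Bq r (∑ j, k j) : ℝ) : ℂ) *
        ((∏ j, (r:ℂ) ^ (k j).natAbs) * ∏ j, ec (-(k j * a j))) := by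
  have hqc := qd_cont h0 h1
  have hec := ec_cont
  have hcont : ∀ k : Fin n → ℤ, Continuous (fun θ => ((qd r θ : ℝ) : ℂ) * tm r a k θ) := by
    intro k
    simp_rw [tm_eq]
    fun_prop
  have hint : ∀ k : Fin n → ℤ, Integrable (fun θ => ((qd r θ : ℝ) : ℂ) * tm r a k θ) uu := by
    intro k
    refine integrable_uu (B := ((1 - r)⁻¹) ^ 4 * ∏ j, r ^ (k j).natAbs) (hcont k) fun x => ?_
    rw [norm_mul, tm_norm h0, Complex.norm_real, Real.norm_of_nonneg (qd_nonneg r x)]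
    have : 0 ≤ ∏ j, r ^ (k j).natAbs := prod_nonneg fun _ _ => by positivity
    exact mul_le_mul_of_nonneg_right (qd_le h0 h1 x) this
  have hnorm : ∀ k : Fin n → ℤ, ∫ θ, ‖((qd r θ : ℝ) : ℂ) * tm r a k θ‖ ∂uu =
      (∫ θ, qd r θ ∂uu) * ∏ j, r ^ (k j).natAbs := by
    intro k
    rw [← integral_mul_const]
    congr 1
    funext θ
    rw [norm_mul, tm_norm h0, Complex.norm_real, Real.norm_of_nonneg (qd_nonneg r θ)]
  have hs := hasSum_integral_of_summable_integral_norm (μ := uu)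
    (F := fun (k : Fin n → ℤ) (θ : ℝ) => ((qd r θ : ℝ) : ℂ) * tm r a k θ) hint (by
      simp_rw [hnorm]
      exact (prod_summable n h0 h1).mul_left _)
  have e1 : ∀ θ, ∑' k : Fin n → ℤ, ((qd r θ : ℝ) : ℂ) * tm r a k θ =
      ((qd r θ : ℝ) : ℂ) * ∏ j, Pk (r:ℂ) (θ - a j) := by
    intro θ
    rw [tsum_mul_left, (tm_hasSum h0 h1 a θ).tsum_eq]
  have e2 : ∀ k : Fin n → ℤ, ∫ θ, ((qd r θ : ℝ) : ℂ) * tm r a k θ ∂uu =
      ((Bq r (∑ j, k j) : ℝ) : ℂ) * ((∏ j, (r:ℂ) ^ (k j).natAbs) * ∏ j, ec (-(k j * a j))) := by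
    intro k
    rw [← Aq_eq h0 h1, Aq, ← integral_mul_const]
    congr 1
    funext θ
    rw [tm_eq]
    ring
  have h3 := hs.tsum_eq
  simp_rw [e1] at h3
  rw [← h3]
  exact tsum_congr e2

lemma Bq_nonneg {r : ℝ} (h0 : 0 ≤ r) (h1 : r < 1) (m : ℤ) : 0 ≤ Bq r m := by
  have hr2 : 0 < (1:ℝ) - r ^ 2 := by nlinarith
  unfold Bq
  positivity

theorem sum_Bq (n : ℕ) {r : ℝ} (h0 : 0 ≤ r) (h1 : r < 1) :
    Summable (fun k : Fin n → ℤ => Bq r (∑ j, k j) * ∏ j, r ^ (k j).natAbs) := by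
  have h := (prod_summable n h0 h1).mul_left ((2 + (1 - r)⁻¹) / (1 - r ^ 2) ^ 3)
  refine Summable.of_nonneg_of_le (fun k => ?_) (fun k => ?_) h
  · exact mul_nonneg (Bq_nonneg h0 h1 _) (prod_nonneg fun _ _ => by positivity)
  · have h2 := Bq_bd h0 h1 (∑ j, k j)
    rw [Complex.norm_real, Real.norm_of_nonneg (Bq_nonneg h0 h1 _)] at h2
    exact mul_le_mul_of_nonneg_right h2 (prod_nonneg fun _ _ => by positivity)

lemma inv_pk {r : ℝ} (h0 : 0 ≤ r) (h1 : r < 1) (x : ℝ) :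
    (((‖(1 - (r : ℂ) * ec x)‖ ^ 2)⁻¹ : ℝ) : ℂ) = Pk (r:ℂ) x * (((1 - r ^ 2 : ℝ) : ℂ))⁻¹ := by
  have hr2 : (1:ℝ) - r ^ 2 ≠ 0 := by nlinarith
  have hr2c : ((1 - r ^ 2 : ℝ) : ℂ) ≠ 0 := by rw [Complex.ofReal_ne_zero]; exact hr2
  unfold Pk
  rw [← nsq, Complex.ofReal_inv]
  have e : (1 - (r:ℂ) ^ 2) = ((1 - r ^ 2 : ℝ) : ℂ) := by push_cast; ring
  rw [e, div_eq_mul_inv]
  field_simp

/-- `p^(-1/2)` -/
def rp (p : ℕ) : ℝ := Real.exp (-(Real.log p / 2))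

lemma rp_sq (p : ℕ) (hp : p.Prime) : rp p ^ 2 = 1 / (p : ℝ) := by
  have h0 : (0:ℝ) < p := by exact_mod_cast hp.pos
  rw [rp, ← Real.exp_nat_mul, one_div, ← Real.exp_log h0, ← Real.exp_neg, Real.exp_log h0]
  congr 1
  push_cast
  ring

lemma rp_pos (p : ℕ) : 0 < rp p := Real.exp_pos _

lemma rp_lt (p : ℕ) (hp : p.Prime) : rp p < 1 := by
  rw [rp, Real.exp_lt_one_iff]
  have h0 : (1:ℝ) < p := by exact_mod_cast hp.one_lt
  have := Real.log_pos h0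
  linarith

lemma cexp_ec (θ : ℝ) : cexp (2 * Real.pi * I * θ) = ec θ := by
  unfold ec
  congr 1
  push_cast
  ring

lemma cpow_ec (p : ℕ) (hp : p.Prime) (θ c : ℝ) :
    cexp (2 * Real.pi * I * θ) * (p : ℂ) ^ (-(1 / 2 + I * c)) =
      (rp p : ℂ) * ec (θ - c * Real.log p / (2 * Real.pi)) := by
  have hp0 : (p : ℂ) ≠ 0 := by exact_mod_cast hp.ne_zero
  rw [Complex.cpow_def_of_ne_zero hp0, ← Complex.natCast_log, rp, Complex.ofReal_exp, ec,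
    ← Complex.exp_add, ← Complex.exp_add]
  congr 1
  have hpi : (Real.pi : ℂ) ≠ 0 := by exact_mod_cast Real.pi_ne_zero
  push_cast
  field_simp
  ring

lemma cpow_ec0 (p : ℕ) (hp : p.Prime) (θ : ℝ) :
    cexp (2 * Real.pi * I * θ) * (p : ℂ) ^ (-(1 / 2) : ℂ) = (rp p : ℂ) * ec θ := by
  have := cpow_ec p hp θ 0
  simpa using this

theorem loc_eq {n : ℕ} (p : ℕ) (hp : p.Prime) (c : Fin n → ℝ) :
    ((loc c p : ℝ) : ℂ) = ((1 - rp p ^ 2 : ℝ) : ℂ) ^ 4 *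
      ∫ θ, ((qd (rp p) θ : ℝ) : ℂ) *
        ∏ j, Pk (rp p : ℂ) (θ - c j * Real.log p / (2 * Real.pi)) ∂uu := by
  have h0 := (rp_pos p).le
  have h1 := rp_lt p hp
  have hr2 : (1:ℝ) - rp p ^ 2 ≠ 0 := by nlinarith
  have hr2c : ((1 - rp p ^ 2 : ℝ) : ℂ) ≠ 0 := by rw [Complex.ofReal_ne_zero]; exact hr2
  rw [loc, ← rp_sq p hp]
  rw [Complex.ofReal_mul, ← intervalIntegral.integral_ofReal]
  have e : ∀ θ : ℝ, ((1 / (‖1 - cexp (2 * Real.pi * I * θ) * (p : ℂ) ^ (-(1 / 2) : ℂ)‖ ^ 4 *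
      ∏ j, ‖1 - cexp (2 * Real.pi * I * θ) * (p : ℂ) ^ (-(1 / 2 + I * c j))‖ ^ 2) : ℝ) : ℂ) =
      (((qd (rp p) θ : ℝ) : ℂ) *
        ∏ j, Pk (rp p : ℂ) (θ - c j * Real.log p / (2 * Real.pi))) *
        (((1 - rp p ^ 2 : ℝ) : ℂ)⁻¹) ^ n := by
    intro θ
    simp_rw [cpow_ec p hp, cpow_ec0 p hp]
    have e1 : (1 / (‖1 - (rp p : ℂ) * ec θ‖ ^ 4 *
      ∏ j, ‖1 - (rp p : ℂ) * ec (θ - c j * Real.log p / (2 * Real.pi))‖ ^ 2) : ℝ) =
      qd (rp p) θ * ∏ j, (‖1 - (rp p : ℂ) * ec (θ - c j * Real.log p / (2 * Real.pi))‖ ^ 2)⁻¹ := by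
      rw [prod_inv_distrib, one_div, mul_inv, qd_eq]
      congr 1
      rw [inv_pow, ← pow_mul]
    rw [e1, Complex.ofReal_mul, Complex.ofReal_prod]
    simp_rw [inv_pk h0 h1]
    rw [prod_mul_distrib, prod_const, card_univ, Fintype.card_fin]
    ring
  simp_rw [e]
  rw [← uu_int, integral_mul_const]
  have e2 : (((1 - rp p ^ 2) ^ (n + 4) : ℝ) : ℂ) =
      ((1 - rp p ^ 2 : ℝ) : ℂ) ^ 4 * ((1 - rp p ^ 2 : ℝ) : ℂ) ^ n := by
    rw [← pow_add, add_comm 4 n]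
    push_cast
    rfl
  rw [e2, inv_pow, mul_assoc]
  congr 1
  rw [mul_comm, mul_assoc, inv_mul_cancel₀ (pow_ne_zero n hr2c), mul_one]

theorem lc_eq {n : ℕ} (p : ℕ) (hp : p.Prime) (k : Fin n → ℤ) :
    (1 - 1 / (p : ℝ) ^ 2) * lc p k =
      (1 - rp p ^ 2) ^ 4 * (Bq (rp p) (∑ j, k j) * ∏ j, rp p ^ (k j).natAbs) := by
  have hp0 : (0:ℝ) < p := by exact_mod_cast hp.pos
  have hp1 : (1:ℝ) < p := by exact_mod_cast hp.one_lt
  have h1 := rp_lt p hp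
  have h0 := rp_pos p
  have hr2 : (1:ℝ) - rp p ^ 2 ≠ 0 := by nlinarith
  have hsq := rp_sq p hp
  have e1 : (p : ℝ) ^ (-((kx k : ℝ) / 2)) = rp p ^ (∑ j, k j).natAbs *
      ∏ j, rp p ^ (k j).natAbs := by
    rw [Real.rpow_def_of_pos hp0, prod_pow_eq_pow_sum, ← pow_add, rp, ← Real.exp_nat_mul]
    congr 1
    unfold kx
    push_cast
    ring
  have e2 : ((p:ℝ) - 1) / ((p:ℝ) + 1) = (1 - rp p ^ 2) / (1 + rp p ^ 2) := by
    rw [hsq]
    field_simp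
  have e3 : 1 - 1 / (p : ℝ) ^ 2 = (1 - rp p ^ 2) * (1 + rp p ^ 2) := by
    rw [hsq]
    field_simp
    ring
  have hpos : (1:ℝ) + rp p ^ 2 ≠ 0 := by positivity
  rw [lc, e1, e2, e3, Bq]
  field_simp

theorem t_LOC : S_LOC := by
  intro n p hp c
  have h0 := (rp_pos p).le
  have h1 := rp_lt p hp
  have hp1 : (1:ℝ) < p := by exact_mod_cast hp.one_lt
  have hne : (1 - 1 / (p : ℝ) ^ 2) ≠ 0 := by
    have h2 : (1:ℝ) < (p:ℝ) ^ 2 := by nlinarith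
    have h3 : 1 / (p : ℝ) ^ 2 < 1 := by rw [div_lt_one (by positivity)]; exact h2
    linarith
  constructor
  · have h := (sum_Bq n h0 h1).mul_left ((1 - 1 / (p : ℝ) ^ 2)⁻¹ * (1 - rp p ^ 2) ^ 4)
    refine h.congr fun k => ?_
    rw [mul_assoc, ← lc_eq p hp k, ← mul_assoc, inv_mul_cancel₀ hne, one_mul]
  · rw [loc_eq p hp c, int_tm h0 h1, ← tsum_mul_left, ← tsum_mul_left]
    refine tsum_congr fun k => ?_
    have h2 := congrArg (fun x : ℝ => (x : ℂ)) (lc_eq p hp k)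
    have e1 : ∏ j, ec (-((k j : ℝ) * (c j * Real.log p / (2 * Real.pi)))) =
        ∏ j, cexp (-(I * ((c j * Real.log p * k j : ℝ) : ℂ))) := by
      apply prod_congr rfl
      intro j _
      rw [ec]
      congr 1
      have hpi : (Real.pi : ℂ) ≠ 0 := by exact_mod_cast Real.pi_ne_zero
      push_cast
      field_simp
    rw [e1, ← mul_assoc, ← mul_assoc, ← mul_assoc]
    congr 1
    push_cast at h2 ⊢
    rw [h2]
    ring

end

end Pool.Agent.Y852.SX
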